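import Pool.Agent.R473.PP.Push

/-!
# Lossless finite-state compressors

An automaton with `Q` states reads a sequence and writes a word in every step; it is lossless if the
word which it has read is determined by the word which it has written and its last state.  While it
writes nothing, the sequence has few failures of `a_k = a_(k + Q!)`.
-/

set_option autoImplicit false

namespace Pool.Agent.R473.PP

open Finset Filter Pool.Agent.W979.HS

section words

variable {σ α β : Type*}

/-- the word which is written while `w` is read, starting in the state `s` -/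
def outw (δ : σ → α → σ) (o : σ → α → List β) : σ → List α → List β
  | _, [] => []
  | s, a :: w => o s a ++ outw δ o (δ s a) w

lemma outw_append (δ : σ → α → σ) (o : σ → α → List β) (s : σ) (x y : List α) :
    outw δ o s (x ++ y) = outw δ o s x ++ outw δ o (x.foldl δ s) y := by
  induction x generalizing s with
  | nil => rfl
  | cons a x ih => simp only [List.cons_append, outw, List.foldl_cons, ih, List.append_assoc]

/-- lossless: the word which has been read is determined by the word which has been written and the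
last state -/
def Lossless (δ : σ → α → σ) (o : σ → α → List β) (q₀ : σ) : Prop :=
  ∀ x y : List α, outw δ o q₀ x = outw δ o q₀ y → x.foldl δ q₀ = y.foldl δ q₀ → x = y

/-- the state after `n` terms of the sequence `d` -/
def st (δ : σ → α → σ) (q₀ : σ) (d : ℕ → α) (n : ℕ) : σ := ((List.range n).map d).foldl δ q₀

lemma st_succ (δ : σ → α → σ) (q₀ : σ) (d : ℕ → α) (n : ℕ) :
    st δ q₀ d (n + 1) = δ (st δ q₀ d n) (d n) := by
  simp [st, List.range_succ]

/-- the terms `d k, …, d (k + L - 1)` -/
def seg (d : ℕ → α) (k L : ℕ) : List α := (List.range L).map fun i => d (k + i)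

lemma seg_length (d : ℕ → α) (k L : ℕ) : (seg d k L).length = L := by simp [seg]

lemma seg_succ (d : ℕ → α) (k L : ℕ) : seg d k (L + 1) = seg d k L ++ [d (k + L)] := by
  simp [seg, List.range_succ]

lemma foldl_seg (δ : σ → α → σ) (q₀ : σ) (d : ℕ → α) (k L : ℕ) :
    (seg d k L).foldl δ (st δ q₀ d k) = st δ q₀ d (k + L) := by
  induction L with
  | zero => rfl
  | succ L ih => rw [seg_succ, List.foldl_append, ih, ← add_assoc, st_succ]; rfl

lemma outw_seg (δ : σ → α → σ) (o : σ → α → List β) (q₀ : σ) (d : ℕ → α) (k L : ℕ)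
    (h : ∀ i, k ≤ i → i < k + L → o (st δ q₀ d i) (d i) = []) :
    outw δ o (st δ q₀ d k) (seg d k L) = [] := by
  induction L with
  | zero => rfl
  | succ L ih =>
    rw [seg_succ, outw_append, ih (fun i h1 h2 => h i h1 (by omega)), foldl_seg]
    simp [outw, h (k + L) (by omega) (by omega)]

lemma seg_take (d : ℕ → α) (k L i : ℕ) (hi : i ≤ L) : (seg d k L).take i = seg d k i := by
  unfold seg
  rw [← List.map_take, List.take_range, min_eq_left hi]

/-- reading a rotation of a silent return word -/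
lemma rotate_silent (δ : σ → α → σ) (o : σ → α → List β) (q₀ : σ) (d : ℕ → α) (k L i : ℕ)
    (hi : i ≤ L) (h : ∀ i, k ≤ i → i < k + L → o (st δ q₀ d i) (d i) = [])
    (hret : st δ q₀ d (k + L) = st δ q₀ d k) :
    outw δ o (st δ q₀ d (k + i)) ((seg d k L).rotate i) = [] ∧
      ((seg d k L).rotate i).foldl δ (st δ q₀ d (k + i)) = st δ q₀ d (k + i) := by
  have hlen : i ≤ (seg d k L).length := by rw [seg_length]; exact hi
  have h1 : (seg d k L).take i ++ (seg d k L).drop i = seg d k L := List.take_append_drop _ _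
  have h2 : ((seg d k L).take i).foldl δ (st δ q₀ d k) = st δ q₀ d (k + i) := by
    rw [seg_take d k L i hi, foldl_seg]
  have h3 := outw_seg δ o q₀ d k L h
  rw [← h1, outw_append, h2, List.append_eq_nil_iff] at h3
  have h4 := foldl_seg δ q₀ d k L
  rw [← h1, List.foldl_append, h2, hret] at h4
  rw [List.rotate_eq_drop_append_take hlen]
  refine ⟨?_, ?_⟩
  · rw [outw_append, h3.2, h4, h3.1]
    rfl
  · rw [List.foldl_append, h4, h2]

/-- two silent visits of the same state at distance more than `P` -/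
lemma silent_eq {Q : ℕ} (δ : Fin Q → α → Fin Q) (o : Fin Q → α → List β) (q₀ : Fin Q)
    (hl : Lossless δ o q₀) (d : ℕ → α) (P : ℕ) (hP : ∀ p, 1 ≤ p → p ≤ Q → p ∣ P) (hQP : Q ≤ P)
    (k L : ℕ) (hL : P < L) (h : ∀ i, k ≤ i → i < k + L → o (st δ q₀ d i) (d i) = [])
    (hret : st δ q₀ d (k + L) = st δ q₀ d k) : d k = d (k + P) := by
  obtain ⟨i, j, hij, hfij⟩ := Fintype.exists_ne_map_eq_of_card_lt
    (fun i : Fin (Q + 1) => st δ q₀ d (k + i)) (by simp)
  wlog hlt : (i : ℕ) < j with H
  · exact H δ o q₀ hl d P hP hQP k L hL h hret j i hij.symm hfij.symm (by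
      have : (i : ℕ) ≠ j := fun h => hij (Fin.ext h)
      omega)
  have hfij' : st δ q₀ d (k + i) = st δ q₀ d (k + j) := hfij
  have hjQ : (j : ℕ) ≤ Q := by have := j.2; omega
  obtain ⟨w, hw⟩ : ∃ w, w = seg d k L := ⟨_, rfl⟩
  have hwl : w.length = L := by rw [hw, seg_length]
  have hi := rotate_silent δ o q₀ d k L i (by omega) h hret
  have hj := rotate_silent δ o q₀ d k L j (by omega) h hret
  rw [← hfij'] at hj
  have hrot : w.rotate i = w.rotate j := by
    have h1 := hl ((List.range (k + i)).map d ++ w.rotate i) ((List.range (k + i)).map d ++ w.rotate j)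
      (by
        rw [outw_append, outw_append]
        change _ ++ outw δ o (st δ q₀ d (k + i)) _ = _ ++ outw δ o (st δ q₀ d (k + i)) _
        rw [hw, hi.1, hj.1])
      (by
        rw [List.foldl_append, List.foldl_append]
        change (w.rotate i).foldl δ (st δ q₀ d (k + i)) = (w.rotate j).foldl δ (st δ q₀ d (k + i))
        rw [hw, hi.2, hj.2])
    exact List.append_cancel_left h1
  obtain ⟨p, hp⟩ : ∃ p : ℕ, (j : ℕ) = i + p := ⟨j - i, by omega⟩
  have hL0 : 0 < L := by omega
  -- the periodic extension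
  have hget : ∀ n, n < L → ∀ r : ℕ, (w.rotate r)[n]? = some (d (k + (n + r) % L)) := by
    intro n hn r
    rw [List.getElem?_rotate (by rw [hwl]; exact hn), hwl, hw]
    unfold seg
    rw [List.getElem?_map, List.getElem?_range (Nat.mod_lt _ hL0)]
    rfl
  have hper0 : ∀ n, d (k + (n + i) % L) = d (k + (n + i + p) % L) := by
    intro n
    have h1 := hget (n % L) (Nat.mod_lt _ hL0) i
    have h2 := hget (n % L) (Nat.mod_lt _ hL0) j
    rw [← hrot, h1, Option.some_inj] at h2
    rw [Nat.mod_add_mod, Nat.mod_add_mod, hp, ← add_assoc] at h2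
    exact h2
  have hper : ∀ n, d (k + n % L) = d (k + (n + p) % L) := by
    intro n
    have h1 := hper0 (n + i * (L - 1))
    have e1 : n + i * (L - 1) + i = n + i * L := by
      obtain ⟨L', rfl⟩ : ∃ L', L = L' + 1 := ⟨L - 1, by omega⟩
      simp only [Nat.add_sub_cancel]
      ring
    rw [e1, show n + i * L + p = n + p + i * L by ring, Nat.add_mul_mod_self_right,
      Nat.add_mul_mod_self_right] at h1
    exact h1
  obtain ⟨m, hm⟩ := hP p (by omega) (by omega)
  have hit : ∀ m n, d (k + n % L) = d (k + (n + p * m) % L) := by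
    intro m
    induction m with
    | zero => intro n; simp
    | succ m ih =>
      intro n
      rw [hper n, ih (n + p)]
      congr 3
      ring
  have h1 := hit m 0
  rw [← hm, zero_add, Nat.zero_mod, Nat.mod_eq_of_lt hL, add_zero] at h1
  exact h1

end words

/-- counting: events and failures between them -/
lemma count_events {α : Type*} [DecidableEq α] (d : ℕ → α) (P K N : ℕ) (E : Finset ℕ)
    (hK : ∀ u v : ℕ, v ≤ N → (∀ i, u ≤ i → i < v → i ∉ E) →
      ((range N).filter fun k => u ≤ k ∧ k + P < v ∧ d k ≠ d (k + P)).card ≤ K) :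
    ((range N).filter fun k => k + P < N ∧ d k ≠ d (k + P)).card ≤
      (E.card + 1) * K + E.card * (P + 1) := by
  classical
  obtain ⟨S, hS⟩ : ∃ S, S = (range N).filter fun k => k + P < N ∧ d k ≠ d (k + P) := ⟨_, rfl⟩
  rw [← hS]
  have hsplit := Finset.card_filter_add_card_filter_not (s := S) (fun k => ∃ e ∈ E, k ≤ e ∧ e ≤ k + P)
  have h1 : (S.filter (fun k => ∃ e ∈ E, k ≤ e ∧ e ≤ k + P)).card ≤ E.card * (P + 1) := by
    calc (S.filter (fun k => ∃ e ∈ E, k ≤ e ∧ e ≤ k + P)).card
        ≤ (E.biUnion fun e => Icc (e - P) e).card := by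
          apply Finset.card_le_card
          intro k hk
          obtain ⟨e, he, h1, h2⟩ := (Finset.mem_filter.1 hk).2
          exact Finset.mem_biUnion.2 ⟨e, he, Finset.mem_Icc.2 ⟨by omega, h1⟩⟩
      _ ≤ E.card * (P + 1) := by
          refine Finset.card_biUnion_le_card_mul _ _ _ fun e _ => ?_
          rw [Nat.card_Icc]
          omega
  have h2 : (S.filter (fun k => ¬ ∃ e ∈ E, k ≤ e ∧ e ≤ k + P)).card ≤ (E.card + 1) * K := by
    obtain ⟨F, hF⟩ : ∃ F, F = S.filter (fun k => ¬ ∃ e ∈ E, k ≤ e ∧ e ≤ k + P) := ⟨_, rfl⟩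
    rw [← hF]
    have h3 := Finset.card_le_mul_card_image_of_maps_to (s := F) (t := range (E.card + 1))
      (f := fun k => (E.filter (· < k)).card) (fun k _ => by
        rw [Finset.mem_range]
        exact Nat.lt_succ_of_le (Finset.card_filter_le _ _)) K (fun j _ => ?_)
    · rw [card_range] at h3
      calc F.card ≤ K * (E.card + 1) := h3
        _ = (E.card + 1) * K := by ring
    · rcases (F.filter fun k => (E.filter (· < k)).card = j).eq_empty_or_nonempty with h4 | h4
      · rw [h4]; simp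
      · obtain ⟨G, hG⟩ : ∃ G, G = F.filter fun k => (E.filter (· < k)).card = j := ⟨_, rfl⟩
        rw [← hG] at h4 ⊢
        have hmin := G.min'_mem h4
        have hmax := G.max'_mem h4
        have hminF := Finset.mem_filter.1 (hG.subset hmin)
        have hmaxF := Finset.mem_filter.1 (hG.subset hmax)
        have hmaxF' := Finset.mem_filter.1 (hF.subset hmaxF.1)
        have hmaxS := Finset.mem_filter.1 (hS.subset hmaxF'.1)
        refine (Finset.card_le_card ?_).trans (hK (G.min' h4) (G.max' h4 + P + 1) (by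
          have := hmaxS.2.1; omega) ?_)
        · intro k hk
          have hkF := Finset.mem_filter.1 (hG.subset hk)
          have hkF' := Finset.mem_filter.1 (hF.subset hkF.1)
          have hkS := Finset.mem_filter.1 (hS.subset hkF'.1)
          refine Finset.mem_filter.2 ⟨hkS.1, G.min'_le k hk, ?_, hkS.2.2⟩
          have := G.le_max' k hk
          omega
        · intro i hi1 hi2 hiE
          rcases le_or_gt (G.max' h4) i with h5 | h5
          · exact hmaxF'.2 ⟨i, hiE, h5, by omega⟩
          · have h6 : (E.filter (· < G.min' h4)).card < (E.filter (· < G.max' h4)).card := by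
              apply Finset.card_lt_card
              rw [Finset.ssubset_iff_of_subset]
              · refine ⟨i, Finset.mem_filter.2 ⟨hiE, h5⟩, ?_⟩
                intro h7
                have := (Finset.mem_filter.1 h7).2
                omega
              · intro e he
                have h7 := Finset.mem_filter.1 he
                refine Finset.mem_filter.2 ⟨h7.1, ?_⟩
                have := h7.2
                omega
            rw [hminF.2, hmaxF.2] at h6
            exact lt_irrefl _ h6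
  omega

/-- the number of the steps among the first `N` in which something is written -/
def writes {σ α β : Type*} [DecidableEq β] (δ : σ → α → σ) (o : σ → α → List β) (q₀ : σ)
    (d : ℕ → α) (N : ℕ) : ℕ :=
  ((range N).filter fun n => o (st δ q₀ d n) (d n) ≠ []).card

/-- few failures in silent stretches -/
lemma silent_count {α β : Type*} [DecidableEq α] [DecidableEq β] {Q : ℕ} (δ : Fin Q → α → Fin Q)
    (o : Fin Q → α → List β) (q₀ : Fin Q)
    (hl : Lossless δ o q₀) (d : ℕ → α) (P : ℕ) (hP : ∀ p, 1 ≤ p → p ≤ Q → p ∣ P) (hQP : Q ≤ P)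
    (N u v : ℕ) (hno : ∀ i, u ≤ i → i < v → o (st δ q₀ d i) (d i) = []) :
    ((range N).filter fun k => u ≤ k ∧ k + P < v ∧ d k ≠ d (k + P)).card ≤ (P + 1) * Q := by
  have h3 := Finset.card_le_mul_card_image_of_maps_to
    (s := (range N).filter fun k => u ≤ k ∧ k + P < v ∧ d k ≠ d (k + P))
    (t := (univ : Finset (Fin Q))) (f := fun k => st δ q₀ d k) (fun k _ => Finset.mem_univ _)
    (P + 1) (fun q _ => ?_)
  · rw [card_univ, Fintype.card_fin] at h3
    exact h3
  · obtain ⟨G, hG⟩ : ∃ G, G = ((range N).filter fun k => u ≤ k ∧ k + P < v ∧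
        d k ≠ d (k + P)).filter fun k => st δ q₀ d k = q := ⟨_, rfl⟩
    rw [← hG]
    rcases G.eq_empty_or_nonempty with h4 | h4
    · rw [h4]; simp
    · have hmin := G.min'_mem h4
      have hminF := Finset.mem_filter.1 (hG.subset hmin)
      have hminS := (Finset.mem_filter.1 hminF.1).2
      have hsub : G ⊆ Icc (G.min' h4) (G.min' h4 + P) := by
        intro k hk
        have hkF := Finset.mem_filter.1 (hG.subset hk)
        have hkS := (Finset.mem_filter.1 hkF.1).2
        rw [Finset.mem_Icc]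
        refine ⟨G.min'_le k hk, ?_⟩
        by_contra hlt
        rw [not_le] at hlt
        obtain ⟨L, hL⟩ : ∃ L, k = G.min' h4 + L := ⟨k - G.min' h4, by omega⟩
        refine hminS.2.2 (silent_eq δ o q₀ hl d P hP hQP (G.min' h4) L (by omega) ?_ ?_)
        · intro i hi1 hi2
          exact hno i (by have := hminS.1; omega) (by have := hkS.2.1; omega)
        · rw [← hL, hkF.2, hminF.2]
      refine (Finset.card_le_card hsub).trans ?_
      rw [Nat.card_Icc]
      omega

/-- failures of `a_k = a_(k+P)` and steps in which something is written -/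
theorem comp_le {β : Type*} [DecidableEq β] {b Q : ℕ} (x : ℝ)
    (δ : Fin Q → Fin b → Fin Q) (o : Fin Q → Fin b → List β) (q₀ : Fin Q)
    (hl : Lossless δ o q₀) (d : ℕ → Fin b) (hd : ∀ i, ((d i : ℕ) : ℤ) = digit b x (i + 1)) (N : ℕ) :
    ((((Icc 1 N).filter (fun k : ℕ =>
      ∑ j ∈ range (Q.factorial + 1),
        (if j = 0 then (1 : ℤ) else if j = Q.factorial then -1 else 0) *
        digit b x (k + j) ≠ 0)).card : ℕ) : ℝ) ≤
      (Q.factorial + (Q.factorial + 1) * Q + (Q.factorial + 1) : ℝ) * (writes δ o q₀ d N + 1) := by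
  classical
  obtain ⟨P, hPdef⟩ : ∃ P, P = Q.factorial := ⟨_, rfl⟩
  have hP1 : 1 ≤ P := by rw [hPdef]; exact Nat.one_le_iff_ne_zero.2 (Nat.factorial_ne_zero _)
  have hdiv : ∀ p, 1 ≤ p → p ≤ Q → p ∣ P := by rw [hPdef]; exact dvd_fact Q
  have hQP : Q ≤ P := by rw [hPdef]; exact Nat.self_le_factorial Q
  rw [← hPdef]
  obtain ⟨E, hE⟩ : ∃ E, E = (range N).filter fun n => o (st δ q₀ d n) (d n) ≠ [] := ⟨_, rfl⟩
  have hEc : writes δ o q₀ d N = E.card := by rw [hE]; rfl
  have hc := count_events d P ((P + 1) * Q) N E (fun u v hv h => by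
    refine silent_count δ o q₀ hl d P hdiv hQP N u v fun i h1 h2 => ?_
    by_contra h3
    exact h i h1 h2 (by rw [hE, Finset.mem_filter, Finset.mem_range]; exact ⟨by omega, h3⟩))
  have hsub : ((Icc 1 N).filter (fun k : ℕ =>
      ∑ j ∈ range (P + 1), (if j = 0 then (1 : ℤ) else if j = P then -1 else 0) *
        digit b x (k + j) ≠ 0)) ⊆
      Ioc (N - P) N ∪ (((range N).filter fun k => k + P < N ∧ d k ≠ d (k + P)).image
        fun i => i + 1) := by
    intro k hk
    rw [mem_filter, mem_Icc, rel_sum P hP1] at hk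
    obtain ⟨⟨hk1, hk2⟩, hk3⟩ := hk
    rw [mem_union, mem_Ioc, mem_image]
    rcases lt_or_ge (N - P) k with h | h
    · exact Or.inl ⟨h, hk2⟩
    · right
      refine ⟨k - 1, ?_, by omega⟩
      rw [mem_filter, mem_range]
      refine ⟨by omega, by omega, ?_⟩
      intro heq
      apply hk3
      have d1 := hd (k - 1)
      have d2 := hd (k - 1 + P)
      rw [← heq, d1] at d2
      rw [show k - 1 + 1 = k by omega, show k - 1 + P + 1 = k + P by omega] at d2
      rw [d2]
      ring
  have h1 : ((Icc 1 N).filter (fun k : ℕ =>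
      ∑ j ∈ range (P + 1), (if j = 0 then (1 : ℤ) else if j = P then -1 else 0) *
        digit b x (k + j) ≠ 0)).card ≤ P + ((E.card + 1) * ((P + 1) * Q) + E.card * (P + 1)) := by
    refine (card_le_card hsub).trans ((card_union_le _ _).trans ?_)
    refine Nat.add_le_add ?_ (card_image_le.trans hc)
    rw [Nat.card_Ioc]
    omega
  refine (Nat.cast_le.2 h1).trans ?_
  rw [hEc]
  push_cast
  have hE0 : (0 : ℝ) ≤ E.card := Nat.cast_nonneg _
  have hP0 : (0 : ℝ) ≤ (P : ℝ) := Nat.cast_nonneg _
  nlinarith [mul_nonneg hP0 hE0]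

/-- **Lossless finite-state compressors**, from the failures of the relations `a_k = a_(k+P)` -/
theorem compressor_access (b : ℕ) (x : ℝ) (f : ℕ → ℝ) (hf : Tendsto f atTop atTop)
    (hrel : ∀ P : ℕ, 1 ≤ P → ∃ c : ℝ, 0 < c ∧ ∃ N0 : ℕ, ∀ N : ℕ, N0 ≤ N →
      c * f N ≤ (((Icc 1 N).filter (fun k : ℕ =>
        ∑ j ∈ range (P + 1), (if j = 0 then (1 : ℤ) else if j = P then -1 else 0) *
          digit b x (k + j) ≠ 0)).card : ℝ))
    (Q : ℕ) :
    ∃ c : ℝ, 0 < c ∧ ∃ N0 : ℕ, ∀ (β : Type) [DecidableEq β] (δ : Fin Q → Fin b → Fin Q)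
      (o : Fin Q → Fin b → List β) (q₀ : Fin Q), Lossless δ o q₀ →
      ∀ d : ℕ → Fin b, (∀ i, ((d i : ℕ) : ℤ) = digit b x (i + 1)) →
      ∀ N : ℕ, N0 ≤ N → c * f N ≤ writes δ o q₀ d N := by
  obtain ⟨c, hc, N0, hN0⟩ := hrel Q.factorial (Nat.one_le_iff_ne_zero.2 (Nat.factorial_ne_zero _))
  obtain ⟨c', hc', N1, hN1, habs⟩ := absorb f hf c
    (Q.factorial + (Q.factorial + 1) * Q + (Q.factorial + 1)) hc (by positivity) N0
  refine ⟨c', hc', N1, fun β _ δ o q₀ hl d hd N hN => ?_⟩
  exact habs N hN _ ((hN0 N (hN1.trans hN)).trans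
    (comp_le x δ o q₀ hl d hd N))

/-- the same with power type bounds -/
theorem compressor_pow (b : ℕ) (x : ℝ)
    (hrel : ∀ P : ℕ, 1 ≤ P → ∃ c δ : ℝ, 0 < c ∧ 0 < δ ∧ ∃ N0 : ℕ, ∀ N : ℕ, N0 ≤ N →
      c * (N : ℝ) ^ δ ≤ (((Icc 1 N).filter (fun k : ℕ =>
        ∑ j ∈ range (P + 1), (if j = 0 then (1 : ℤ) else if j = P then -1 else 0) *
          digit b x (k + j) ≠ 0)).card : ℝ))
    (Q : ℕ) :
    ∃ c ε : ℝ, 0 < c ∧ 0 < ε ∧ ∃ N0 : ℕ, ∀ (β : Type) [DecidableEq β] (δ : Fin Q → Fin b → Fin Q)
      (o : Fin Q → Fin b → List β) (q₀ : Fin Q), Lossless δ o q₀ →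
      ∀ d : ℕ → Fin b, (∀ i, ((d i : ℕ) : ℤ) = digit b x (i + 1)) →
      ∀ N : ℕ, N0 ≤ N → c * (N : ℝ) ^ ε ≤ writes δ o q₀ d N := by
  obtain ⟨c, ε, hc, hε, N0, hN0⟩ :=
    hrel Q.factorial (Nat.one_le_iff_ne_zero.2 (Nat.factorial_ne_zero _))
  have hf : Tendsto (fun N : ℕ => (N : ℝ) ^ ε) atTop atTop :=
    (tendsto_rpow_atTop hε).comp tendsto_natCast_atTop_atTop
  obtain ⟨c', hc', N1, hN1, habs⟩ := absorb _ hf c
    (Q.factorial + (Q.factorial + 1) * Q + (Q.factorial + 1)) hc (by positivity) N0
  refine ⟨c', ε, hc', hε, N1, fun β _ δ o q₀ hl d hd N hN => ?_⟩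
  exact habs N hN _ ((hN0 N (hN1.trans hN)).trans
    (comp_le x δ o q₀ hl d hd N))

end Pool.Agent.R473.PP
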