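import Pool.Agent.R473.PP.Comp

/-!
# Failures of periodicity bound the errors of predictors and the writes of compressors

The finite (windowed) form of the counting lemmas, and its combination with words which occur often
in all long windows.
-/

set_option autoImplicit false

namespace Pool.Agent.R473.PP

open Finset Filter Pool.Agent.W979.HS

/-- the number of failures of `d k = d (k + P)` among the first `N` terms -/
def fails {α : Type*} [DecidableEq α] (d : ℕ → α) (P N : ℕ) : ℕ :=
  ((range N).filter fun k => k + P < N ∧ d k ≠ d (k + P)).card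

lemma fails_mono {α : Type*} [DecidableEq α] (d : ℕ → α) (P : ℕ) {N N' : ℕ} (h : N ≤ N') :
    fails d P N ≤ fails d P N' := by
  apply Finset.card_le_card
  intro k hk
  rw [Finset.mem_filter, Finset.mem_range] at hk ⊢
  exact ⟨by omega, by omega, hk.2.2⟩

lemma fails_congr {α : Type*} [DecidableEq α] {d d' : ℕ → α} (P N : ℕ) (h : ∀ k < N, d k = d' k) :
    fails d P N = fails d' P N := by
  unfold fails
  congr 1
  apply Finset.filter_congr
  intro k hk
  rw [Finset.mem_range] at hk
  constructor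
  · rintro ⟨h1, h2⟩
    exact ⟨h1, by rw [← h k hk, ← h _ h1]; exact h2⟩
  · rintro ⟨h1, h2⟩
    exact ⟨h1, by rw [h k hk, h _ h1]; exact h2⟩

/-- reading in the other direction -/
lemma fails_rev {α : Type*} [DecidableEq α] {d d' : ℕ → α} (P N : ℕ)
    (h : ∀ k < N, d' k = d (N - 1 - k)) : fails d P N ≤ fails d' P N := by
  unfold fails
  apply Finset.card_le_card_of_injOn (fun k => N - 1 - (k + P))
  · intro k hk
    rw [Finset.mem_coe, Finset.mem_filter, Finset.mem_range] at hk ⊢
    refine ⟨by show N - 1 - (k + P) < N; omega, by show N - 1 - (k + P) + P < N; omega, ?_⟩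
    show d' (N - 1 - (k + P)) ≠ d' (N - 1 - (k + P) + P)
    rw [h _ (by omega), h _ (by omega),
      show N - 1 - (N - 1 - (k + P)) = k + P by omega,
      show N - 1 - (N - 1 - (k + P) + P) = k by omega]
    exact hk.2.2.symm
  · intro k hk k' hk' he
    rw [Finset.mem_coe, Finset.mem_filter, Finset.mem_range] at hk hk'
    have he' : N - 1 - (k + P) = N - 1 - (k' + P) := he
    omega

/-- **Pushdown predictors**: few errors give few failures -/
theorem predictor_fail {b : ℕ} {Q Γ : Type} [Fintype Q] [Fintype Γ] (M : Predictor b Q Γ) :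
    ∃ P C : ℕ, 1 ≤ P ∧ ∀ (q₀ : Q) (d : ℕ → Fin b) (N T : ℕ), N ≤ (M.conf q₀ d T).1 →
      fails d P N ≤ C * (M.wrong q₀ d T + 1) := by
  classical
  obtain ⟨LO, C3, hmain⟩ := M.prog.main
  refine ⟨LO.factorial, C3 * LO.factorial, Nat.one_le_iff_ne_zero.2 (Nat.factorial_ne_zero _),
    fun q₀ d N T hN => (fails_mono d _ hN).trans ?_⟩
  have h2 := (hmain (M.qq q₀ d) (M.ss q₀ d) _ (M.traj q₀ d) (2 * T)).dfc_le (dvd_fact LO)
  rw [M.written_even] at h2
  have h4 : fails d LO.factorial (M.conf q₀ d T).1 ≤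
      dfc LO.factorial ((List.range (M.conf q₀ d T).1).map fun i => (d i : ℕ)) := by
    unfold fails dfc
    apply Finset.card_le_card
    intro k hk
    rw [Finset.mem_filter, Finset.mem_range] at hk ⊢
    rw [List.length_map, List.length_range]
    refine ⟨hk.1, hk.2.1, ?_⟩
    rw [List.getElem?_map, List.getElem?_map, List.getElem?_range hk.2.1, List.getElem?_range hk.1]
    intro h
    have h5 := Option.some.inj h
    exact hk.2.2 (Fin.ext h5.symm)
  refine h4.trans (h2.trans ?_)
  rw [Nat.mul_right_comm]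
  refine Nat.mul_le_mul_left _ (Nat.succ_le_succ ?_)
  convert M.card_ev q₀ d T

/-- **Lossless compressors**: few writes give few failures -/
theorem comp_fail {α β : Type*} [DecidableEq α] [DecidableEq β] {Q : ℕ}
    (δ : Fin Q → α → Fin Q) (o : Fin Q → α → List β) (q₀ : Fin Q)
    (hl : Lossless δ o q₀) (d : ℕ → α) (N : ℕ) :
    fails d Q.factorial N ≤ (Q.factorial + 1) * (Q + 1) * (writes δ o q₀ d N + 1) := by
  classical
  obtain ⟨P, hPdef⟩ : ∃ P, P = Q.factorial := ⟨_, rfl⟩
  have hdiv : ∀ p, 1 ≤ p → p ≤ Q → p ∣ P := by rw [hPdef]; exact dvd_fact Q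
  have hQP : Q ≤ P := by rw [hPdef]; exact Nat.self_le_factorial Q
  rw [← hPdef]
  obtain ⟨E, hE⟩ : ∃ E, E = (range N).filter fun n => o (st δ q₀ d n) (d n) ≠ [] := ⟨_, rfl⟩
  have hEc : writes δ o q₀ d N = E.card := by rw [hE]; rfl
  have hc := count_events d P ((P + 1) * Q) N E (fun u v hv h => by
    refine silent_count δ o q₀ hl d P hdiv hQP N u v fun i h1 h2 => ?_
    by_contra h3
    exact h i h1 h2 (by rw [hE, Finset.mem_filter, Finset.mem_range]; exact ⟨by omega, h3⟩))
  rw [hEc]
  refine (show fails d P N ≤ _ from hc).trans ?_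
  nlinarith [Nat.zero_le (E.card * (P + 1))]

/-- occurrences of the word `0…01` are failures -/
lemma word_fails {b : ℕ} (hb : 2 ≤ b) (m P u l : ℕ) (hP : 1 ≤ P) (d : ℕ → Fin b)
    (hd : ∀ k < l, (d k : ℕ) = m / b ^ (u + k) % b) :
    ((range (u + l)).filter (fun i : ℕ => u ≤ i ∧ i + (P + 1) ≤ u + l ∧
      m / b ^ i % b ^ (P + 1) = 1)).card ≤ fails d P l := by
  unfold fails
  apply Finset.card_le_card_of_injOn (fun i => i - u)
  · intro i hi
    rw [Finset.mem_coe, Finset.mem_filter, Finset.mem_range] at hi ⊢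
    obtain ⟨h1, h2, h3, h4⟩ := hi
    refine ⟨by show i - u < l; omega, by show i - u + P < l; omega, ?_⟩
    show d (i - u) ≠ d (i - u + P)
    intro h
    have h5 := hd (i - u) (by omega)
    have h6 := hd (i - u + P) (by omega)
    rw [← h, h5] at h6
    rw [show u + (i - u) = i by omega, show u + (i - u + P) = i + P by omega] at h6
    have h7 : m / b ^ i % b = 1 := by
      have h8 : b ∣ b ^ (P + 1) := dvd_pow_self b (by omega)
      rw [← Nat.mod_mod_of_dvd _ h8, h4]
      exact Nat.mod_eq_of_lt (by omega)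
    have h8 : m / b ^ (i + P) % b = 0 := by
      rw [pow_add, ← Nat.div_div_eq_div_mul]
      have h9 : m / b ^ i / b ^ P % b = m / b ^ i % b ^ (P + 1) / b ^ P := by
        rw [pow_succ, Nat.mod_mul_right_div_self]
      rw [h9, h4]
      exact Nat.div_eq_of_lt (Nat.one_lt_pow (by omega) (by omega))
    omega
  · intro i hi i' hi' he
    rw [Finset.mem_coe, Finset.mem_filter, Finset.mem_range] at hi hi'
    have he' : i - u = i' - u := he
    omega

/-- `d 0, …, d (l - 1)` are the digits of `m` in base `b` at the places `u, …, u + l - 1` (the last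
digit of `m` has the place `0`), in this or in the opposite order -/
def Reads (b m u l : ℕ) (d : ℕ → Fin b) : Prop :=
  (∀ k < l, (d k : ℕ) = m / b ^ (u + k) % b) ∨ (∀ k < l, (d k : ℕ) = m / b ^ (u + l - 1 - k) % b)

lemma word_fails' {b : ℕ} (hb : 2 ≤ b) (m P u l : ℕ) (hP : 1 ≤ P) (d : ℕ → Fin b)
    (hd : Reads b m u l d) :
    ((range (u + l)).filter (fun i : ℕ => u ≤ i ∧ i + (P + 1) ≤ u + l ∧
      m / b ^ i % b ^ (P + 1) = 1)).card ≤ fails d P l := by
  rcases hd with hd | hd
  · exact word_fails hb m P u l hP d hd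
  · refine (word_fails hb m P u l hP (fun k => ⟨m / b ^ (u + k) % b, Nat.mod_lt _ (by omega)⟩)
      (fun k _ => rfl)).trans (fails_rev P l fun k hk => ?_)
    apply Fin.ext
    rw [hd k hk]
    show _ = m / b ^ (u + (l - 1 - k)) % b
    rw [show u + l - 1 - k = u + (l - 1 - k) by omega]

lemma real_bound {C F E : ℕ} {T ε : ℝ} (hT : 1 ≤ T) (hε1 : ε ≤ 1) (hC : 2 * (C : ℝ) ≤ T ^ (ε / 2))
    (h1 : T ^ (1 - ε / 2) ≤ F) (h2 : F ≤ C * (E + 1)) : T ^ (1 - ε) ≤ E := by
  have hT0 : 0 < T := by linarith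
  have h3 : (F : ℝ) ≤ C * (E + 1) := by exact_mod_cast h2
  have h4 : T ^ (1 - ε / 2) = T ^ (1 - ε) * T ^ (ε / 2) := by
    rw [← Real.rpow_add hT0]
    congr 1
    ring
  have h5 : 1 ≤ T ^ (1 - ε) := Real.one_le_rpow hT (by linarith)
  by_contra hlt
  push Not at hlt
  have hE : (0 : ℝ) ≤ E := Nat.cast_nonneg _
  have hC0 : (0 : ℝ) ≤ C := Nat.cast_nonneg _
  have h6 : (E : ℝ) + 1 < 2 * T ^ (1 - ε) := by linarith
  have h7 : T ^ (1 - ε) * (2 * C) ≤ C * (E + 1) := by
    calc T ^ (1 - ε) * (2 * C) ≤ T ^ (1 - ε) * T ^ (ε / 2) :=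
          mul_le_mul_of_nonneg_left hC (by linarith)
      _ ≤ C * (E + 1) := by rw [← h4]; linarith
  rcases eq_or_lt_of_le hC0 with h8 | h8
  · rw [← h8] at h3
    have h9 : 0 < T ^ (1 - ε / 2) := Real.rpow_pos_of_pos hT0 _
    linarith
  · nlinarith

end Pool.Agent.R473.PP
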