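import Mathlib
import Pool.Agent.TH842.HS.Power

/-!
# Pushdown predictors

A deterministic pushdown automaton reads a sequence and, before it reads the next term, announces a
guess.  Between two wrong guesses it runs autonomously, so the sequence which it reads is what a
pushdown automaton with few interventions from outside writes.
-/

set_option autoImplicit false

namespace Pool.Agent.R473.PP

open Finset Filter Pool.Agent.W979.HS

/-- A pushdown predictor with the set of states `Q` and the stack symbols `Γ` for sequences over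
`Fin b`.  Its moves depend on its state and on the top symbol of the stack (if there is one). -/
structure Predictor (b : ℕ) (Q Γ : Type) where
  /-- an internal move (new state, action on the stack), or `none`: the next term is read -/
  internal : Q → Option Γ → Option (Q × Act Γ)
  /-- the term it expects, when the next term is read -/
  guess : Q → Option Γ → Fin b
  /-- the move when it reads a term -/
  read : Q → Option Γ → Fin b → Q × Act Γ

variable {b : ℕ} {Q Γ : Type}

/-- configurations: number of the terms read so far, state, content of the stack -/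
abbrev Conf (Q Γ : Type) := ℕ × Q × List Γ

/-- one step on the sequence `d 0, d 1, …` -/
def Predictor.step (M : Predictor b Q Γ) (d : ℕ → Fin b) (c : Conf Q Γ) : Conf Q Γ :=
  match M.internal c.2.1 c.2.2.head? with
  | some m => (c.1, m.1, m.2.app c.2.2)
  | none => (c.1 + 1, (M.read c.2.1 c.2.2.head? (d c.1)).1,
      (M.read c.2.1 c.2.2.head? (d c.1)).2.app c.2.2)

/-- the configuration after `t` steps, when the machine starts in the state `q₀` with the empty
stack -/
def Predictor.conf (M : Predictor b Q Γ) (q₀ : Q) (d : ℕ → Fin b) (t : ℕ) : Conf Q Γ :=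
  (M.step d)^[t] (0, q₀, [])

/-- the machine reads a term in the configuration `c` and has guessed a different one -/
def Predictor.Wrong (M : Predictor b Q Γ) (d : ℕ → Fin b) (c : Conf Q Γ) : Prop :=
  M.internal c.2.1 c.2.2.head? = none ∧ M.guess c.2.1 c.2.2.head? ≠ d c.1

open Classical in
/-- the number of wrong guesses in the first `T` steps -/
noncomputable def Predictor.wrong (M : Predictor b Q Γ) (q₀ : Q) (d : ℕ → Fin b) (T : ℕ) : ℕ :=
  ((range T).filter fun t => M.Wrong d (M.conf q₀ d t)).card

/-- the program which simulates the predictor: every step is replaced by two, in the first of which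
the term to be written is chosen (by default the guess) -/
def Predictor.prog (M : Predictor b Q Γ) : Prog (Q × Option (Option (Fin b))) Γ where
  nx s top := match s.2 with
    | none => (s.1, some (match M.internal s.1 top with
      | some _ => none
      | none => some (M.guess s.1 top)))
    | some none => (match M.internal s.1 top with
      | some m => (m.1, none)
      | none => (s.1, none))
    | some (some a) => ((M.read s.1 top a).1, none)
  ac s top := match s.2 with
    | none => .stay
    | some none => (match M.internal s.1 top with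
      | some m => m.2
      | none => .stay)
    | some (some a) => (M.read s.1 top a).2
  ot s _ := match s.2 with
    | some (some a) => some (a : ℕ)
    | _ => none

/-- what is written in the configuration `c` -/
def Predictor.term (M : Predictor b Q Γ) (d : ℕ → Fin b) (c : Conf Q Γ) : Option (Fin b) :=
  match M.internal c.2.1 c.2.2.head? with
  | some _ => none
  | none => some (d c.1)

/-- the states of the simulation -/
def Predictor.qq (M : Predictor b Q Γ) (q₀ : Q) (d : ℕ → Fin b) (t : ℕ) :
    Q × Option (Option (Fin b)) :=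
  if t % 2 = 0 then ((M.conf q₀ d (t / 2)).2.1, none)
  else ((M.conf q₀ d (t / 2)).2.1, some (M.term d (M.conf q₀ d (t / 2))))

/-- the stacks of the simulation -/
def Predictor.ss (M : Predictor b Q Γ) (q₀ : Q) (d : ℕ → Fin b) (t : ℕ) : List Γ :=
  (M.conf q₀ d (t / 2)).2.2

lemma Predictor.conf_succ (M : Predictor b Q Γ) (q₀ : Q) (d : ℕ → Fin b) (t : ℕ) :
    M.conf q₀ d (t + 1) = M.step d (M.conf q₀ d t) := by
  unfold Predictor.conf
  rw [Function.iterate_succ_apply']

lemma Predictor.traj (M : Predictor b Q Γ) (q₀ : Q) (d : ℕ → Fin b) :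
    Traj M.prog (M.qq q₀ d) (M.ss q₀ d)
      (fun t => t % 2 = 0 ∧ M.Wrong d (M.conf q₀ d (t / 2))) := by
  refine ⟨rfl, fun t => ?_, fun t hev => ?_⟩
  · rcases Nat.even_or_odd' t with ⟨k, rfl | rfl⟩
    · have h1 : (2 * k + 1) / 2 = k := by omega
      have h2 : (2 * k) / 2 = k := by omega
      have h3 : (2 * k) % 2 = 0 := by omega
      simp only [Predictor.ss, Predictor.qq, h1, h2, h3, if_true, Predictor.prog, Act.app]
    · have h1 : (2 * k + 1 + 1) / 2 = k + 1 := by omega
      have h2 : (2 * k + 1) / 2 = k := by omega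
      have h3 : (2 * k + 1) % 2 ≠ 0 := by omega
      simp only [Predictor.ss, Predictor.qq, h1, h2, h3, if_false, Predictor.prog,
        Predictor.conf_succ, Predictor.step, Predictor.term]
      cases h : M.internal (M.conf q₀ d k).2.1 (M.conf q₀ d k).2.2.head? with
      | some m => simp
      | none => simp
  · rcases Nat.even_or_odd' t with ⟨k, rfl | rfl⟩
    · have h1 : (2 * k + 1) / 2 = k := by omega
      have h2 : (2 * k) / 2 = k := by omega
      have h3 : (2 * k) % 2 = 0 := by omega
      have h4 : (2 * k + 1) % 2 ≠ 0 := by omega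
      have hw : ¬ M.Wrong d (M.conf q₀ d k) := fun h => hev ⟨h3, by rw [h2]; exact h⟩
      simp only [Predictor.ss, Predictor.qq, h1, h2, h3, h4, if_true, if_false, Predictor.prog,
        Predictor.term]
      cases h : M.internal (M.conf q₀ d k).2.1 (M.conf q₀ d k).2.2.head? with
      | some m => simp
      | none =>
        have h5 : M.guess (M.conf q₀ d k).2.1 (M.conf q₀ d k).2.2.head? = d (M.conf q₀ d k).1 := by
          by_contra h6
          exact hw ⟨h, h6⟩
        simp [h5]
    · have h1 : (2 * k + 1 + 1) / 2 = k + 1 := by omega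
      have h2 : (2 * k + 1) / 2 = k := by omega
      have h3 : (2 * k + 1) % 2 ≠ 0 := by omega
      have h4 : (2 * k + 1 + 1) % 2 = 0 := by omega
      simp only [Predictor.ss, Predictor.qq, h1, h2, h3, h4, if_true, if_false, Predictor.prog,
        Predictor.term, Predictor.conf_succ, Predictor.step]
      cases h : M.internal (M.conf q₀ d k).2.1 (M.conf q₀ d k).2.2.head? with
      | some m => simp
      | none => simp

lemma Predictor.written_even (M : Predictor b Q Γ) (q₀ : Q) (d : ℕ → Fin b) (T : ℕ) :
    written M.prog (M.qq q₀ d) (M.ss q₀ d) (2 * T) =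
      (List.range (M.conf q₀ d T).1).map fun i => (d i : ℕ) := by
  induction T with
  | zero => rfl
  | succ k ih =>
    have h1 : (2 * k + 1) / 2 = k := by omega
    have h2 : (2 * k) / 2 = k := by omega
    have h3 : (2 * k) % 2 = 0 := by omega
    have h4 : (2 * k + 1) % 2 ≠ 0 := by omega
    rw [show 2 * (k + 1) = 2 * k + 1 + 1 by ring, written, written, ih]
    simp only [Predictor.ss, Predictor.qq, h1, h2, h3, h4, if_true, if_false, Predictor.prog,
      Predictor.term, Predictor.conf_succ, Predictor.step]
    cases h : M.internal (M.conf q₀ d k).2.1 (M.conf q₀ d k).2.2.head? with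
    | some m => simp
    | none => simp [List.range_succ]

lemma Predictor.written_odd (M : Predictor b Q Γ) (q₀ : Q) (d : ℕ → Fin b) (T : ℕ) :
    written M.prog (M.qq q₀ d) (M.ss q₀ d) (2 * T + 1) =
      (List.range (M.conf q₀ d T).1).map fun i => (d i : ℕ) := by
  have h2 : (2 * T) / 2 = T := by omega
  have h3 : (2 * T) % 2 = 0 := by omega
  rw [written, M.written_even]
  simp only [Predictor.qq, h2, h3, if_true, Predictor.prog]
  simp

open Classical in
lemma Predictor.card_ev (M : Predictor b Q Γ) (q₀ : Q) (d : ℕ → Fin b) (T : ℕ) :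
    ((range (2 * T)).filter (fun t => t % 2 = 0 ∧ M.Wrong d (M.conf q₀ d (t / 2)))).card ≤
      M.wrong q₀ d T := by
  unfold Predictor.wrong
  apply Finset.card_le_card_of_injOn (fun t => t / 2)
  · intro t ht
    rw [Finset.mem_coe, Finset.mem_filter, Finset.mem_range] at ht
    rw [Finset.mem_coe, Finset.mem_filter, Finset.mem_range]
    exact ⟨by have := ht.1; show t / 2 < T; omega, ht.2.2⟩
  · intro t ht t' ht' h
    rw [Finset.mem_coe, Finset.mem_filter] at ht ht'
    have h1 := ht.2.1
    have h2 := ht'.2.1
    have h3 : t / 2 = t' / 2 := h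
    omega

/-- **Pushdown predictors**, from the failures of the relations `a_k = a_(k+P)` -/
theorem predictor_access (b : ℕ) (x : ℝ) (f : ℕ → ℝ) (hf : Tendsto f atTop atTop)
    (hrel : ∀ P : ℕ, 1 ≤ P → ∃ c : ℝ, 0 < c ∧ ∃ N0 : ℕ, ∀ N : ℕ, N0 ≤ N →
      c * f N ≤ (((Icc 1 N).filter (fun k : ℕ =>
        ∑ j ∈ range (P + 1), (if j = 0 then (1 : ℤ) else if j = P then -1 else 0) *
          digit b x (k + j) ≠ 0)).card : ℝ))
    [Fintype Q] [Fintype Γ] (M : Predictor b Q Γ) :
    ∃ c : ℝ, 0 < c ∧ ∃ N0 : ℕ, ∀ (q₀ : Q) (d : ℕ → Fin b), (∀ i, ((d i : ℕ) : ℤ) = digit b x (i + 1)) →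
      ∀ N T : ℕ, N0 ≤ N → N ≤ (M.conf q₀ d T).1 → c * f N ≤ M.wrong q₀ d T := by
  classical
  obtain ⟨c, hc, N0, h⟩ := access b x f hf hrel M.prog 0
  refine ⟨c, hc, N0, fun q₀ d hd N T hN hNT => ?_⟩
  have hget : ∀ (T i e : ℕ), (written M.prog (M.qq q₀ d) (M.ss q₀ d) T)[0 + i]? = some e →
      (e : ℤ) = digit b x (i + 1) := by
    intro T i e he
    have key : ∀ n : ℕ, ((List.range n).map fun i => (d i : ℕ))[0 + i]? = some e →
        (e : ℤ) = digit b x (i + 1) := by
      intro n hn
      rw [zero_add, List.getElem?_map, Option.map_eq_some_iff] at hn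
      obtain ⟨j, hj, hje⟩ := hn
      rw [List.getElem?_eq_some_iff] at hj
      obtain ⟨hj1, hj2⟩ := hj
      rw [List.getElem_range] at hj2
      rw [← hje, ← hj2]
      exact hd i
    rcases Nat.even_or_odd' T with ⟨k, rfl | rfl⟩
    · rw [M.written_even] at he
      exact key _ he
    · rw [M.written_odd] at he
      exact key _ he
  have h1 := h (M.qq q₀ d) (M.ss q₀ d) _ (M.traj q₀ d) hget N (2 * T) hN (by
    rw [M.written_even, List.length_map, List.length_range]
    exact hNT)
  have h2 : ((range (2 * T)).filter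
      (fun t => t % 2 = 0 ∧ M.Wrong d (M.conf q₀ d (t / 2)))).card ≤ M.wrong q₀ d T := by
    convert M.card_ev q₀ d T
  refine h1.trans (Nat.cast_le.2 (le_trans (le_of_eq ?_) h2))
  apply congrArg
  ext t
  simp only [Finset.mem_filter]

/-- the same with power type bounds -/
theorem predictor_pow (b : ℕ) (x : ℝ)
    (hrel : ∀ P : ℕ, 1 ≤ P → ∃ c δ : ℝ, 0 < c ∧ 0 < δ ∧ ∃ N0 : ℕ, ∀ N : ℕ, N0 ≤ N →
      c * (N : ℝ) ^ δ ≤ (((Icc 1 N).filter (fun k : ℕ =>
        ∑ j ∈ range (P + 1), (if j = 0 then (1 : ℤ) else if j = P then -1 else 0) *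
          digit b x (k + j) ≠ 0)).card : ℝ))
    [Fintype Q] [Fintype Γ] (M : Predictor b Q Γ) :
    ∃ c δ : ℝ, 0 < c ∧ 0 < δ ∧ ∃ N0 : ℕ, ∀ (q₀ : Q) (d : ℕ → Fin b),
      (∀ i, ((d i : ℕ) : ℤ) = digit b x (i + 1)) →
      ∀ N T : ℕ, N0 ≤ N → N ≤ (M.conf q₀ d T).1 → c * (N : ℝ) ^ δ ≤ M.wrong q₀ d T := by
  classical
  obtain ⟨c, δ, hc, hδ, N0, h⟩ := Pool.Agent.TH842.HS.access_pow b x hrel M.prog 0
  refine ⟨c, δ, hc, hδ, N0, fun q₀ d hd N T hN hNT => ?_⟩
  have hget : ∀ (T i e : ℕ), (written M.prog (M.qq q₀ d) (M.ss q₀ d) T)[0 + i]? = some e →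
      (e : ℤ) = digit b x (i + 1) := by
    intro T i e he
    have key : ∀ n : ℕ, ((List.range n).map fun i => (d i : ℕ))[0 + i]? = some e →
        (e : ℤ) = digit b x (i + 1) := by
      intro n hn
      rw [zero_add, List.getElem?_map, Option.map_eq_some_iff] at hn
      obtain ⟨j, hj, hje⟩ := hn
      rw [List.getElem?_eq_some_iff] at hj
      obtain ⟨hj1, hj2⟩ := hj
      rw [List.getElem_range] at hj2
      rw [← hje, ← hj2]
      exact hd i
    rcases Nat.even_or_odd' T with ⟨k, rfl | rfl⟩
    · rw [M.written_even] at he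
      exact key _ he
    · rw [M.written_odd] at he
      exact key _ he
  have h1 := h (M.qq q₀ d) (M.ss q₀ d) _ (M.traj q₀ d) hget N (2 * T) hN (by
    rw [M.written_even, List.length_map, List.length_range]
    exact hNT)
  have h2 : ((range (2 * T)).filter
      (fun t => t % 2 = 0 ∧ M.Wrong d (M.conf q₀ d (t / 2)))).card ≤ M.wrong q₀ d T := by
    convert M.card_ev q₀ d T
  refine h1.trans (Nat.cast_le.2 (le_trans (le_of_eq ?_) h2))
  apply congrArg
  ext t
  simp only [Finset.mem_filter]

end Pool.Agent.R473.PP
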