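import Pool.Agent.R473.PP.Fail

/-!
# Words which a given predictor and all small lossless automata find hard
-/

set_option autoImplicit false

namespace Pool.Agent.R473.PP

open Finset Filter Pool.Agent.W979.HS

/-- the first `l` terms of `d` are those of `y`, in the same or in the opposite order -/
def ReadsWord {α : Type*} (y : ℕ → α) (l : ℕ) (d : ℕ → α) : Prop :=
  (∀ k < l, d k = y k) ∨ (∀ k < l, d k = y (l - 1 - k))

/-- The predictor `A`, started in any state with the empty stack, is wrong at least `t` times before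
it has read the first `l` terms of `d`, and every lossless automaton with `K` states writes
something in at least `t` of the `l` steps in which it reads them. -/
def Hard {b : ℕ} {Q Γ : Type} (A : Predictor b Q Γ) (K : ℕ) (t : ℝ) (l : ℕ) (d : ℕ → Fin b) : Prop :=
  (∀ (q₀ : Q) (T : ℕ), l ≤ (A.conf q₀ d T).1 → t ≤ A.wrong q₀ d T) ∧
  (∀ (β : Type) [DecidableEq β] (δ : Fin K → Fin b → Fin K) (o : Fin K → Fin b → List β)
    (q₀ : Fin K), Lossless δ o q₀ → t ≤ writes δ o q₀ d l)

lemma fails_le_of_reads {α : Type*} [DecidableEq α] {y d : ℕ → α} {l : ℕ} (h : ReadsWord y l d)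
    (P : ℕ) : fails y P l ≤ fails d P l := by
  rcases h with h | h
  · exact (fails_congr P l fun k hk => (h k hk).symm).le
  · exact fails_rev P l h

theorem hard_of_fails {b : ℕ} {Q Γ : Type} [Fintype Q] [Fintype Γ] (A : Predictor b Q Γ) (K : ℕ) :
    ∃ P₁ P₂ C : ℕ, 1 ≤ P₁ ∧ 1 ≤ P₂ ∧ ∀ (y d : ℕ → Fin b) (l : ℕ), ReadsWord y l d →
      ∀ T ε : ℝ, 1 ≤ T → ε ≤ 1 → 2 * (C : ℝ) ≤ T ^ (ε / 2) →
        T ^ (1 - ε / 2) ≤ fails y P₁ l → T ^ (1 - ε / 2) ≤ fails y P₂ l →
          Hard A K (T ^ (1 - ε)) l d := by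
  obtain ⟨P, C, hP, hpred⟩ := predictor_fail A
  refine ⟨P, K.factorial, C + (K.factorial + 1) * (K + 1), hP,
    Nat.one_le_iff_ne_zero.2 (Nat.factorial_ne_zero _), fun y d l hy T ε hT hε hC h1 h2 => ⟨?_, ?_⟩⟩
  · intro q₀ s hs
    have hC' : 2 * (C : ℝ) ≤ T ^ (ε / 2) := by
      refine le_trans ?_ hC
      push_cast
      have : (0 : ℝ) ≤ ((K.factorial : ℝ) + 1) * (K + 1) := by positivity
      linarith
    exact real_bound hT hε hC' (h1.trans (Nat.cast_le.2 (fails_le_of_reads hy P)))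
      (hpred q₀ d l s hs)
  · intro β _ δ o q₀ hlos
    have hC' : 2 * (((K.factorial + 1) * (K + 1) : ℕ) : ℝ) ≤ T ^ (ε / 2) := by
      refine le_trans ?_ hC
      push_cast
      have : (0 : ℝ) ≤ (C : ℝ) := Nat.cast_nonneg _
      linarith
    exact real_bound hT hε hC' (h2.trans (Nat.cast_le.2 (fails_le_of_reads hy K.factorial)))
      (comp_fail δ o q₀ hlos d l)

/-- two exceptional sets -/
lemma filt_add' {α : Type*} [DecidableEq α] (s : Finset α) (p p1 p2 : α → Prop) [DecidablePred p]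
    [DecidablePred p1] [DecidablePred p2] (h : ∀ t, ¬ p1 t → ¬ p2 t → ¬ p t) {x y : ℝ}
    (h1 : ((s.filter p1).card : ℝ) ≤ x) (h2 : ((s.filter p2).card : ℝ) ≤ y) :
    ((s.filter p).card : ℝ) ≤ x + y := by
  refine le_trans ?_ (add_le_add h1 h2)
  rw [← Nat.cast_add]
  refine Nat.cast_le.2 (le_trans (Finset.card_le_card ?_) (Finset.card_union_le _ _))
  intro t ht
  rw [Finset.mem_filter] at ht
  rw [Finset.mem_union, Finset.mem_filter, Finset.mem_filter]
  by_contra hcon
  rw [not_or, not_and, not_and] at hcon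
  exact h t (hcon.1 ht.1) (hcon.2 ht.1) ht.2

end Pool.Agent.R473.PP
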